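import Mathlib
import Pool.Agent.N675.RL.Fin

/-! Project RL: the final theorems in explicit form. -/

namespace Pool.Agent.N675.RL

open Finset Pool.Agent.N675 Pool.Agent.N781.A Pool.Agent.N781.P Pool.Agent.N675.Q

section

variable {p s t q k : ℕ}

/-- the forms of `E` with coefficients at the long variables proportional to those of `i₀` -/
def clu (a : Fin k → ℤ) (α : Fin k → Fin p → ℤ) (E : Finset (Fin k)) (i₀ : Fin k) :
    Finset (Fin k) := E.filter fun i => ∀ u, a i₀ * α i u = a i * α i₀ u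

/-- good sets of forms -/
def GoodE (b : Fin t → ℤ) (β : Fin t → Fin p → ℤ) (a' : Fin q → ℤ) (α' : Fin q → Fin p → ℤ)
    (a : Fin k → ℤ) (α : Fin k → Fin p → ℤ) (L : Fin k → Fin s → ℤ) (E : Finset (Fin k)) : Prop :=
  ∃ i₀ ∈ E, (∀ j, ∃ u, a i₀ * β j u ≠ b j * α i₀ u) ∧
    (∀ j, ∃ u, a i₀ * α' j u ≠ a' j * α i₀ u) ∧
    (Odd (clu a α E i₀).card ∨ ∃ i₁ ∈ clu a α E i₀, ∃ (w : ℤ) (v : Fin p → ℤ) (v' : Fin s → ℤ),
      a i₁ * w + ∑ u, α i₁ u * v u + ∑ g, L i₁ g * v' g ≠ 0 ∧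
      ∀ i ∈ clu a α E i₀, i ≠ i₁ → a i * w + ∑ u, α i u * v u + ∑ g, L i g * v' g = 0)

/-- no two of the affine functions are proportional -/
def NPr (b : Fin t → ℤ) (β : Fin t → Fin p → ℤ) (e : Fin t → ℤ) : Prop :=
  ∀ j j', j ≠ j' → ∀ c c' : ℤ, c * b j = c' * b j' → (∀ u, c * β j u = c' * β j' u) →
    c * e j = c' * e j' → c = 0 ∧ c' = 0

lemma NPa_of (b : Fin t → ℤ) (β : Fin t → Fin p → ℤ) (e : Fin t → ℤ)
    (hb : ∀ j, b j ≠ 0 ∨ β j ≠ 0) (h : NPr b β e) :
    NPa (fun j => (Fin.cons (b j) (β j) : Fin (p + 1) → ℤ)) e := by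
  intro j j' hjj
  by_contra hc
  rw [not_or] at hc
  obtain ⟨h1, h2⟩ := hc
  push Not at h1 h2
  obtain ⟨u, hu⟩ : ∃ u, (Fin.cons (b j) (β j) : Fin (p + 1) → ℤ) u ≠ 0 := by
    rcases hb j with h0 | h0
    · exact ⟨0, by simpa using h0⟩
    · obtain ⟨u, hu⟩ := Function.ne_iff.1 h0
      exact ⟨u.succ, by simpa using hu⟩
  have h3 := h j j' hjj ((Fin.cons (b j') (β j') : Fin (p + 1) → ℤ) u)
    ((Fin.cons (b j) (β j) : Fin (p + 1) → ℤ) u) (by
      have := h1 u 0
      simp only [Fin.cons_zero] at this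
      linarith) (fun u' => by
      have := h1 u u'.succ
      simp only [Fin.cons_succ] at this
      linarith) (by
      have := h2 u
      linarith)
  exact hu h3.2

lemma sum_PB1 {s : ℕ} (D : Fin s → ℕ) (f : (Fin s → ℤ) → ℝ) :
    ∑ y ∈ Fintype.piFinset (fun g => PB 1 (D g)), f (fun g => y g 0)
      = ∑ y ∈ Fintype.piFinset (fun g => Icc (1 : ℤ) (D g)), f y := by
  refine Finset.sum_bij' (fun y _ => fun g => y g 0) (fun y _ => fun g _ => y g) ?_ ?_ ?_ ?_ ?_
  · intro y hy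
    rw [Fintype.mem_piFinset] at hy ⊢
    intro g
    rw [Finset.mem_Icc]
    exact mem_PB.1 (hy g) 0
  · intro y hy
    rw [Fintype.mem_piFinset] at hy ⊢
    intro g
    rw [mem_PB]
    intro u
    exact Finset.mem_Icc.1 (hy g)
  · intro y _
    funext g u
    rw [Subsingleton.elim u 0]
  · intro y _
    rfl
  · intro y _
    rfl

open Classical in
theorem rl_sub (h : ℤ → ℝ) (hh : ∀ m, |h m| ≤ 1) (hSG : M.SG h) (b : Fin t → ℤ)
    (β : Fin t → Fin p → ℤ) (e : Fin t → ℤ) (hb : ∀ j, b j ≠ 0 ∨ β j ≠ 0) (hNP : NPr b β e)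
    (a' : Fin q → ℤ) (α' : Fin q → Fin p → ℤ) (L' : Fin q → Fin s → ℤ)
    (a : Fin k → ℤ) (α : Fin k → Fin p → ℤ) (L : Fin k → Fin s → ℤ) (ha : ∀ i, a i ≠ 0)
    (E : Finset (Fin k)) (hg : GoodE b β a' α' a α L E) (R : ℕ) (ε : ℝ) (hε : 0 < ε) :
    ∃ K : ℕ, ∀ (x : ℕ) (X : Fin p → ℕ) (D : Fin s → ℕ), K ≤ x → (∀ u, x ≤ R * X u) →
      (∀ u, X u ≤ R * x) → (∀ g, K ≤ D g) → (∀ g, D g ≤ R * x) →
      ∀ f : Fin q → ℤ → ℝ, (∀ j m, |f j m| ≤ 1) →
      ∑ y ∈ Fintype.piFinset (fun g => Icc (1 : ℤ) (D g)),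
        ∑ m ∈ Fintype.piFinset (fun u => Icc (1 : ℤ) (X u)),
          |∑ n ∈ Icc (1 : ℤ) x,
            (∏ j, ArithmeticFunction.vonMangoldt (b j * n + ∑ u, β j u * m u + e j).natAbs) *
            (∏ j, f j (a' j * n + ∑ u, α' j u * m u + ∑ g, L' j g * y g)) *
            ∏ i ∈ E, h (a i * n + ∑ u, α i u * m u + ∑ g, L i g * y g)|
        ≤ ε * (x * (∏ u, (X u : ℝ)) * ∏ g, (D g : ℝ)) := by
  obtain ⟨i₀, hi₀, hbp, hap, hcase⟩ := hg
  set A : {i // i ∈ E} ⊕ Fin q → Fin (p + 1) → ℤ :=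
    Sum.elim (fun i => Fin.cons (a i.1) (α i.1)) (fun j => Fin.cons (a' j) (α' j)) with hA
  set LA : {i // i ∈ E} ⊕ Fin q → Fin s × Fin 1 → ℤ :=
    Sum.elim (fun i z => L i.1 z.1) (fun j z => L' j z.1) with hLA
  set c₀ : {i // i ∈ E} ⊕ Fin q := Sum.inl ⟨i₀, hi₀⟩ with hc₀
  set E₀ : Finset ({i // i ∈ E} ⊕ Fin q) :=
    Finset.univ.filter fun i => ∀ u, A c₀ 0 * A i u = A i 0 * A c₀ u with hE₀
  have hmem : ∀ i, i ∈ E₀ ↔ ∀ u, A c₀ 0 * A i u = A i 0 * A c₀ u := by
    intro i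
    rw [hE₀, Finset.mem_filter]
    simp
  have hinr : ∀ j, (Sum.inr j : {i // i ∈ E} ⊕ Fin q) ∉ E₀ := by
    intro j hj
    rw [hmem] at hj
    obtain ⟨u, hu⟩ := hap j
    have := hj u.succ
    simp only [hA, hc₀, Sum.elim_inl, Sum.elim_inr, Fin.cons_zero, Fin.cons_succ] at this
    exact hu this
  have hinl : ∀ i : {i // i ∈ E}, (Sum.inl i : {i // i ∈ E} ⊕ Fin q) ∈ E₀ ↔
      i.1 ∈ clu a α E i₀ := by
    intro i
    rw [hmem]
    unfold clu
    rw [Finset.mem_filter]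
    constructor
    · intro hi
      refine ⟨i.2, fun u => ?_⟩
      have := hi u.succ
      simpa only [hA, hc₀, Sum.elim_inl, Fin.cons_zero, Fin.cons_succ] using this
    · rintro ⟨-, hi⟩ u
      refine Fin.cases ?_ (fun u => ?_) u
      · simp only [hA, hc₀, Sum.elim_inl, Fin.cons_zero]
        ring
      · simpa only [hA, hc₀, Sum.elim_inl, Fin.cons_zero, Fin.cons_succ] using hi u
  have hcls : ∀ j : E₀, j ∈ M.cls (fun i : E₀ => A i 0)
      (fun i : E₀ => Sum.elim (LA i) (fun j : Fin p => A i j.succ))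
      (Sum.elim (fun _ : Fin s × Fin 1 => false) (fun _ => true))
      ⟨c₀, (hmem c₀).2 fun u => by ring⟩ := by
    intro j
    rw [M.mem_cls]
    rintro (z | u) hz
    · simp at hz
    · simp only [Sum.elim_inr]
      have := (hmem j.1).1 j.2 u.succ
      linarith
  have hgood : M.GoodS (fun i : E₀ => A i 0)
      (fun i : E₀ => Sum.elim (LA i) (fun j : Fin p => A i j.succ))
      (Sum.elim (fun z : Fin s × Fin 1 => (fun _ => false : Fin s → Bool) z.1)
        (fun _ => true)) := by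
    refine ⟨⟨c₀, (hmem c₀).2 fun u => by ring⟩, ?_⟩
    rcases hcase with hodd | ⟨i₁, hi₁, w, v, v', hv1, hv0⟩
    · left
      have h1 : M.cls (fun i : E₀ => A i 0)
          (fun i : E₀ => Sum.elim (LA i) (fun j : Fin p => A i j.succ))
          (Sum.elim (fun z : Fin s × Fin 1 => (fun _ => false : Fin s → Bool) z.1)
            (fun _ => true)) ⟨c₀, (hmem c₀).2 fun u => by ring⟩ = Finset.univ :=
        Finset.eq_univ_iff_forall.2 fun j => hcls j
      rw [h1, Finset.card_univ, Fintype.card_coe]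
      have h2 : (clu a α E i₀).card = E₀.card := by
        refine Finset.card_bij (fun i hi => Sum.inl ⟨i, (Finset.mem_filter.1 hi).1⟩) ?_ ?_ ?_
        · intro i hi
          exact (hinl _).2 hi
        · intro i hi i' hi' hii
          simpa using hii
        · rintro (i | j) hj
          · exact ⟨i.1, (hinl i).1 hj, rfl⟩
          · exact absurd hj (hinr j)
      rw [← h2]
      exact hodd
    · right
      have hLL : ∀ (i : {i // i ∈ E}) (hi : (Sum.inl i : {i // i ∈ E} ⊕ Fin q) ∈ E₀),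
          LL (fun i : E₀ => Sum.elim (LA i) (fun j : Fin p => A i j.succ)) ⟨Sum.inl i, hi⟩
            (Sum.elim (fun z : Fin s × Fin 1 => v' z.1) v)
          = ∑ u, α i.1 u * v u + ∑ g, L i.1 g * v' g := by
        intro i hi
        unfold LL
        rw [Fintype.sum_sum_type, Fintype.sum_prod_type]
        simp only [Sum.elim_inl, Sum.elim_inr, hA, hLA, Fin.cons_succ, Finset.univ_unique,
          Finset.sum_singleton]
        ring
      refine ⟨⟨Sum.inl ⟨i₁, (Finset.mem_filter.1 hi₁).1⟩, (hinl _).2 hi₁⟩, hcls _, w,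
        Sum.elim (fun z => v' z.1) v, ?_, ?_⟩
      · rw [hLL]
        simp only [hA, Sum.elim_inl, Fin.cons_zero]
        rw [← add_assoc]
        exact hv1
      · rintro ⟨i | j, hj⟩ _ hne
        · rw [hLL]
          simp only [hA, Sum.elim_inl, Fin.cons_zero]
          rw [← add_assoc]
          refine hv0 i.1 ((hinl i).1 hj) ?_
          intro h1
          apply hne
          apply Subtype.ext
          simp only
          congr 1
          exact Subtype.ext h1
        · exact absurd hj (hinr j)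
  obtain ⟨K, hK⟩ := rl (fun _ => 0) (fun j => (Fin.cons (b j) (β j) : Fin (p + 1) → ℤ)) e A LA
    (fun _ => Fin.elim0) (fun _ => Fin.elim0) h hh hSG c₀ (by
      intro j hj
      rcases hb j with h0 | h0
      · apply h0
        have := congrFun hj 0
        simpa using this
      · apply h0
        funext u
        have := congrFun hj u.succ
        simpa using this) (by
      simp only [hA, hc₀, Sum.elim_inl, Fin.cons_zero]
      exact ha i₀) (by
      rintro (i | j) h1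
      · apply ha i.1
        have := congrFun h1 0
        simpa [hA] using this
      · obtain ⟨u, hu⟩ := hap j
        apply hu
        have h2 := congrFun h1 0
        have h3 := congrFun h1 u.succ
        simp only [hA, Sum.elim_inr, Fin.cons_zero, Fin.cons_succ, Pi.zero_apply] at h2 h3
        rw [h2, h3]
        ring) (NPa_of b β e hb hNP) (by
      intro j
      obtain ⟨u, hu⟩ := hbp j
      refine ⟨u.succ, 0, ?_⟩
      simp only [hA, hc₀, Sum.elim_inl, Fin.cons_zero, Fin.cons_succ]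
      intro h1
      apply hu
      linarith) (fun _ j => j.elim0) (fun _ j => j.elim0) (fun _ => false) E₀ hmem hgood R 1 ε
    one_pos hε
  refine ⟨(R + 1) * K, fun x X D hx hxX hXx hD hDx f hf => ?_⟩
  have hKx : K ≤ x := by nlinarith
  have hKX : ∀ u, K ≤ X u := by
    intro u
    by_contra h1
    rw [not_le] at h1
    have h2 := hxX u
    have h3 : R * X u ≤ R * K := Nat.mul_le_mul_left _ h1.le
    have h4 : 0 < K := by omega
    nlinarith
  have h1 := hK D X x hKx (fun g => by have := hD g; nlinarith) hDx (fun g hg => by simp at hg)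
    hKX hXx hxX (Sum.elim (fun _ => h) f) (by
      rintro (i | j) hi
      · rfl
      · exact absurd hi (hinr j)) (by
      rintro (i | j) m
      · exact hh m
      · exact hf j m)
  have h2 : ∀ y : Fin s → Fin 1 → ℤ, (∏ g, ∏ j : Fin 0, om 1 (D g)
      (aff ((Fin.elim0 : Fin 0 → Fin 1 → ℤ) j) ((Fin.elim0 : Fin 0 → ℤ) j) (y g))) = 1 := by
    intro y
    simp
  simp only [h2, one_mul, pow_one] at h1
  rw [mul_assoc (x : ℝ)]
  refine le_trans (le_of_eq ?_) h1
  rw [← sum_PB1]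
  refine Finset.sum_congr rfl fun y _ => Finset.sum_congr rfl fun m _ => ?_
  congr 1
  refine Finset.sum_congr rfl fun n _ => ?_
  rw [Fintype.prod_sum_type, mul_assoc]
  congr 1
  · refine Finset.prod_congr rfl fun j _ => ?_
    rw [ip_cons]
    simp only [Fin.cons_zero, Fin.cons_succ]
  · rw [mul_comm]
    have hLLi : ∀ i : {i // i ∈ E} ⊕ Fin q, LL LA i (fun z : Fin s × Fin 1 => y z.1 z.2)
        = ∑ g, LA i (g, 0) * y g 0 := by
      intro i
      unfold LL
      rw [Fintype.sum_prod_type]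
      simp
    congr 1
    · rw [← Finset.prod_coe_sort E]
      refine Finset.prod_congr rfl fun i _ => ?_
      rw [hLLi]
      simp only [hA, hLA, Sum.elim_inl]
      rw [ip_cons]
      simp only [Fin.cons_zero, Fin.cons_succ]
    · refine Finset.prod_congr rfl fun j _ => ?_
      rw [hLLi]
      simp only [hA, hLA, Sum.elim_inr]
      rw [ip_cons]
      simp only [Fin.cons_zero, Fin.cons_succ]

open Classical in
theorem rl_pat (h : ℤ → ℝ) (hh : ∀ m, h m = 1 ∨ h m = -1) (hSG : M.SG h) (b : Fin t → ℤ)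
    (β : Fin t → Fin p → ℤ) (e : Fin t → ℤ) (hb : ∀ j, b j ≠ 0 ∨ β j ≠ 0) (hNP : NPr b β e)
    (a' : Fin q → ℤ) (α' : Fin q → Fin p → ℤ) (L' : Fin q → Fin s → ℤ)
    (a : Fin k → ℤ) (α : Fin k → Fin p → ℤ) (L : Fin k → Fin s → ℤ) (ha : ∀ i, a i ≠ 0)
    (hg : ∀ E : Finset (Fin k), E.Nonempty → GoodE b β a' α' a α L E) (R : ℕ) (ε : ℝ)
    (hε : 0 < ε) :
    ∃ K : ℕ, ∀ (x : ℕ) (X : Fin p → ℕ) (D : Fin s → ℕ), K ≤ x → (∀ u, x ≤ R * X u) →
      (∀ u, X u ≤ R * x) → (∀ g, K ≤ D g) → (∀ g, D g ≤ R * x) →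
      ∀ f : Fin q → ℤ → ℝ, (∀ j m, |f j m| ≤ 1) → ∀ σ : Fin k → ℝ, (∀ i, σ i = 1 ∨ σ i = -1) →
      ∑ y ∈ Fintype.piFinset (fun g => Icc (1 : ℤ) (D g)),
        ∑ m ∈ Fintype.piFinset (fun u => Icc (1 : ℤ) (X u)),
          |∑ n ∈ Icc (1 : ℤ) x,
            (∏ j, ArithmeticFunction.vonMangoldt (b j * n + ∑ u, β j u * m u + e j).natAbs) *
            (∏ j, f j (a' j * n + ∑ u, α' j u * m u + ∑ g, L' j g * y g)) *
            ((if ∀ i, h (a i * n + ∑ u, α i u * m u + ∑ g, L i g * y g) = σ i then 1 else 0)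
              - 1 / 2 ^ k)|
        ≤ ε * (x * (∏ u, (X u : ℝ)) * ∏ g, (D g : ℝ)) := by
  have hh1 : ∀ m, |h m| ≤ 1 := by
    intro m
    rcases hh m with h1 | h1 <;> rw [h1] <;> simp
  have h0 : ∀ E : Finset (Fin k), ∃ K : ℕ, E.Nonempty → ∀ (x : ℕ) (X : Fin p → ℕ)
      (D : Fin s → ℕ), K ≤ x → (∀ u, x ≤ R * X u) →
      (∀ u, X u ≤ R * x) → (∀ g, K ≤ D g) → (∀ g, D g ≤ R * x) →
      ∀ f : Fin q → ℤ → ℝ, (∀ j m, |f j m| ≤ 1) →
      ∑ y ∈ Fintype.piFinset (fun g => Icc (1 : ℤ) (D g)),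
        ∑ m ∈ Fintype.piFinset (fun u => Icc (1 : ℤ) (X u)),
          |∑ n ∈ Icc (1 : ℤ) x,
            (∏ j, ArithmeticFunction.vonMangoldt (b j * n + ∑ u, β j u * m u + e j).natAbs) *
            (∏ j, f j (a' j * n + ∑ u, α' j u * m u + ∑ g, L' j g * y g)) *
            ∏ i ∈ E, h (a i * n + ∑ u, α i u * m u + ∑ g, L i g * y g)|
        ≤ ε * (x * (∏ u, (X u : ℝ)) * ∏ g, (D g : ℝ)) := by
    intro E
    by_cases hE : E.Nonempty
    · obtain ⟨K, hK⟩ := rl_sub h hh1 hSG b β e hb hNP a' α' L' a α L ha E (hg E hE) R ε hε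
      exact ⟨K, fun _ => hK⟩
    · exact ⟨0, fun h => absurd h hE⟩
  choose K hK using h0
  refine ⟨Finset.univ.sup K, fun x X D hx hxX hXx hD hDx f hf σ hσ => ?_⟩
  have hle : ∀ E, K E ≤ Finset.univ.sup K := fun E => Finset.le_sup (f := K) (Finset.mem_univ E)
  set N : ℝ := x * (∏ u, (X u : ℝ)) * ∏ g, (D g : ℝ) with hN
  have hN0 : 0 ≤ N := mul_nonneg (mul_nonneg (Nat.cast_nonneg _)
    (Finset.prod_nonneg fun _ _ => Nat.cast_nonneg _)) (Finset.prod_nonneg fun _ _ =>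
    Nat.cast_nonneg _)
  set T : (Fin s → ℤ) → (Fin p → ℤ) → ℤ → ℝ := fun y m n =>
    (∏ j, ArithmeticFunction.vonMangoldt (b j * n + ∑ u, β j u * m u + e j).natAbs) *
            (∏ j, f j (a' j * n + ∑ u, α' j u * m u + ∑ g, L' j g * y g)) with hT
  have hpt : ∀ (y : Fin s → ℤ) (m : Fin p → ℤ), |∑ n ∈ Icc (1 : ℤ) x, T y m n *
            ((if ∀ i, h (a i * n + ∑ u, α i u * m u + ∑ g, L i g * y g) = σ i then 1 else 0)
              - 1 / 2 ^ k)|
      ≤ (1 / 2) ^ k * ∑ E ∈ (Finset.univ : Finset (Finset (Fin k))).erase ∅,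
        |∑ n ∈ Icc (1 : ℤ) x, T y m n *
          ∏ i ∈ E, h (a i * n + ∑ u, α i u * m u + ∑ g, L i g * y g)| := by
    intro y m
    have h1 : ∀ n : ℤ, ((if ∀ i, h (a i * n + ∑ u, α i u * m u + ∑ g, L i g * y g) = σ i
        then (1 : ℝ) else 0) - 1 / 2 ^ k)
        = (1 / 2) ^ k * ∑ E ∈ (Finset.univ : Finset (Finset (Fin k))).erase ∅,
          (∏ i ∈ E, σ i) * ∏ i ∈ E, h (a i * n + ∑ u, α i u * m u + ∑ g, L i g * y g) := by
      intro n
      have h2 := M.sign_ind σ hσ (fun i => h (a i * n + ∑ u, α i u * m u + ∑ g, L i g * y g))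
        (fun i => hh _)
      rw [Fintype.card_fin] at h2
      have h3 : (if ∀ i, h (a i * n + ∑ u, α i u * m u + ∑ g, L i g * y g) = σ i
        then (1 : ℝ) else 0) = (1 / 2) ^ k * ∑ E : Finset (Fin k), (∏ i ∈ E, σ i) *
          ∏ i ∈ E, h (a i * n + ∑ u, α i u * m u + ∑ g, L i g * y g) := by
        refine Eq.trans ?_ h2
        congr
      rw [h3, ← Finset.add_sum_erase _ _ (Finset.mem_univ (∅ : Finset (Fin k)))]
      simp only [Finset.prod_empty, one_mul]
      rw [mul_add, one_div, inv_pow]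
      ring
    simp only [h1]
    have h4 : ∑ n ∈ Icc (1 : ℤ) x, T y m n * ((1 / 2) ^ k *
        ∑ E ∈ (Finset.univ : Finset (Finset (Fin k))).erase ∅,
          (∏ i ∈ E, σ i) * ∏ i ∈ E, h (a i * n + ∑ u, α i u * m u + ∑ g, L i g * y g))
        = (1 / 2) ^ k * ∑ E ∈ (Finset.univ : Finset (Finset (Fin k))).erase ∅,
          (∏ i ∈ E, σ i) * ∑ n ∈ Icc (1 : ℤ) x, T y m n *
          ∏ i ∈ E, h (a i * n + ∑ u, α i u * m u + ∑ g, L i g * y g) := by
      simp only [Finset.mul_sum]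
      rw [Finset.sum_comm]
      refine Finset.sum_congr rfl fun E _ => Finset.sum_congr rfl fun n _ => ?_
      ring
    rw [h4, abs_mul, abs_of_nonneg (by positivity : (0 : ℝ) ≤ (1 / 2) ^ k)]
    refine mul_le_mul_of_nonneg_left ((Finset.abs_sum_le_sum_abs _ _).trans
      (Finset.sum_le_sum fun E _ => ?_)) (by positivity)
    rw [abs_mul]
    have h6 : |∏ i ∈ E, σ i| = 1 := by
      rw [Finset.abs_prod]
      refine Finset.prod_eq_one fun i _ => ?_
      rcases hσ i with h7 | h7 <;> rw [h7] <;> simp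
    rw [h6, one_mul]
  calc _ ≤ ∑ y ∈ Fintype.piFinset (fun g => Icc (1 : ℤ) (D g)),
        ∑ m ∈ Fintype.piFinset (fun u => Icc (1 : ℤ) (X u)), ((1 / 2) ^ k *
        ∑ E ∈ (Finset.univ : Finset (Finset (Fin k))).erase ∅,
        |∑ n ∈ Icc (1 : ℤ) x, T y m n *
          ∏ i ∈ E, h (a i * n + ∑ u, α i u * m u + ∑ g, L i g * y g)|) :=
        Finset.sum_le_sum fun y _ => Finset.sum_le_sum fun m _ => hpt y m
    _ = (1 / 2) ^ k * ∑ E ∈ (Finset.univ : Finset (Finset (Fin k))).erase ∅,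
        ∑ y ∈ Fintype.piFinset (fun g => Icc (1 : ℤ) (D g)),
        ∑ m ∈ Fintype.piFinset (fun u => Icc (1 : ℤ) (X u)),
        |∑ n ∈ Icc (1 : ℤ) x, T y m n *
          ∏ i ∈ E, h (a i * n + ∑ u, α i u * m u + ∑ g, L i g * y g)| := by
        rw [Finset.sum_comm]
        rw [Finset.mul_sum]
        simp only [Finset.mul_sum, Finset.sum_comm
          (s := (Finset.univ : Finset (Finset (Fin k))).erase ∅)]
        rw [Finset.sum_comm]
    _ ≤ (1 / 2) ^ k * ∑ E ∈ (Finset.univ : Finset (Finset (Fin k))).erase ∅, ε * N := by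
        refine mul_le_mul_of_nonneg_left (Finset.sum_le_sum fun E hE => ?_) (by positivity)
        have hE' : E.Nonempty := Finset.nonempty_iff_ne_empty.2 (Finset.ne_of_mem_erase hE)
        exact hK E hE' x X D ((hle E).trans hx) hxX hXx (fun g => (hle E).trans (hD g)) hDx f hf
    _ ≤ (1 / 2) ^ k * (2 ^ k * (ε * N)) := by
        refine mul_le_mul_of_nonneg_left ?_ (by positivity)
        rw [Finset.sum_const, nsmul_eq_mul]
        refine mul_le_mul_of_nonneg_right ?_ (by positivity)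
        have h1 : (((Finset.univ : Finset (Finset (Fin k))).erase ∅).card : ℝ)
            ≤ (Finset.univ : Finset (Finset (Fin k))).card := by
          exact_mod_cast Finset.card_le_card (Finset.erase_subset _ _)
        refine h1.trans (le_of_eq ?_)
        rw [Finset.card_univ, Fintype.card_finset, Fintype.card_fin]
        push_cast
        rfl
    _ = ε * N := by
        rw [← mul_assoc, ← mul_pow]
        norm_num

end

end Pool.Agent.N675.RL
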